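import Pool.Agent.Lib.MP_d3d358_ag.Orb.Three

/-! Kernel computations in the cohomology of `N`. -/

namespace Pool.Agent.Lib.MP_d3d358_ag.Orb

open ExteriorAlgebra

def tb (i j k l : Fin 4) : ℤ :=
  if k = i ∧ l = j then -6 * (-1) ^ (k.val + l.val)
  else if k = j ∧ l = i then 6 * (-1) ^ (k.val + l.val) else 0

def tri (i j k l : Fin 4) : Pol :=
  pm (pc (col (tilP [(1, [i.val, j.val])])) (col (tilP [(1, yL k)]))) (col (tilP [(1, yL l)]))

theorem chk_tri : ∀ i j k l : Fin 4, i < j →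
    (okF FN (tri i j k l) && cf (tri i j k l) == tb i j k l) = true := by decide +kernel

def w4 : Pol := col (tilP [(1, [0, 2]), (1, [1, 3])])

theorem chk_four : (okF FN (pm (pc w4 w4) (pc w4 w4)) &&
    cf (pm (pc w4 w4) (pc w4 w4)) == 216) = true := by decide +kernel

theorem ev_one {W : Type} [AddCommGroup W] [Module ℚ W] (b : ℕ → W) (l : List ℕ) :
    ev b [(1, l)] = mon b l := by simp [ev_cons]

theorem tri_eq (i j k l : Fin 4) (h : i < j) :
    tl (mon eA [i.val, j.val]) * tl (mon eA (yL k)) * tl (mon eA (yL l))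
      = (tb i j k l : ℚ) • mon eN FN := by
  have h1 : lt4 [(1, [i.val, j.val])] = true := by simp [lt4]
  have h2 : ∀ m : Fin 4, lt4 [(1, yL m)] = true := by decide
  rw [← ev_one, ← ev_one eA (yL k), ← ev_one eA (yL l), tl_apply, tl_apply, tl_apply,
    til_ev _ h1, til_ev _ (h2 k), til_ev _ (h2 l), ← ev_col eN (tilP [(1, [i.val, j.val])]),
    ← ev_col eN (tilP [(1, yL k)]), ← ev_col eN (tilP [(1, yL l)]), ← ev_pc, ← ev_pm]
  exact ev_chk eN FN _ _ (chk_tri i j k l h)

theorem four_eq :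
    tl (mon eA [0, 2] + mon eA [1, 3]) * tl (mon eA [0, 2] + mon eA [1, 3]) *
      (tl (mon eA [0, 2] + mon eA [1, 3]) * tl (mon eA [0, 2] + mon eA [1, 3]))
      = (216 : ℚ) • mon eN FN := by
  have e : mon eA [0, 2] + mon eA [1, 3] = ev eA [(1, [0, 2]), (1, [1, 3])] := by
    simp [ev_cons]
  rw [e, tl_apply, til_ev _ (by decide), ← ev_col, ← ev_pc, ← ev_pm]
  exact_mod_cast ev_chk eN FN _ _ chk_four

/-- sign of the permutation `(i j k l)`, zero if two entries agree -/
def sg (i j k l : Fin 4) : ℤ := (nf [i.val, j.val, k.val, l.val]).1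

theorem chk_sg : ∀ i j k l : Fin 4, sg i j k l = 0 ∨ (nf [i.val, j.val, k.val, l.val]).2 = FA := by
  decide +kernel

theorem quad_eq (i j k l : Fin 4) :
    mon eA [i.val, j.val] * ι ℚ (eA k) * ι ℚ (eA l) = (sg i j k l : ℚ) • mon eA FA := by
  have e : mon eA [i.val, j.val] * ι ℚ (eA k) * ι ℚ (eA l)
      = mon eA [i.val, j.val, k.val, l.val] := by simp [mon, mul_assoc]
  rw [e, nf_ok]
  rcases chk_sg i j k l with h | h
  · have h' : (nf [i.val, j.val, k.val, l.val]).1 = 0 := h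
    simp [h, h']
  · rw [h]; rfl

end Pool.Agent.Lib.MP_d3d358_ag.Orb
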