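import Mathlib

/-! A very general point of the Siegel upper half space. -/

namespace Pool.Agent.Lib.MP_d3d358_ag.Orb

open Cardinal

theorem ex_indep : ∃ w : Fin 3 → ℂ, AlgebraicIndependent ℚ w := by
  obtain ⟨s, hs⟩ := exists_isTranscendenceBasis ℚ ℂ
  have h := IsAlgClosed.cardinal_eq_cardinal_transcendence_basis_of_aleph0_lt' _ hs
    (by simp) (by rw [Cardinal.mk_complex]; exact Cardinal.aleph0_lt_continuum)
  have hi : Infinite s := by
    rw [Cardinal.infinite_iff, ← h, Cardinal.mk_complex]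
    exact Cardinal.aleph0_le_continuum
  let e := Infinite.natEmbedding s
  exact ⟨_, hs.1.comp (fun i : Fin 3 => e i) (e.injective.comp Fin.val_injective)⟩

theorem indep_of_sq {w z : Fin 3 → ℂ} (hw : AlgebraicIndependent ℚ w) (c : Fin 3 → ℂ)
    (hc : ∀ j, c j ≠ 0) (ha : ∀ j, IsAlgebraic ℚ (c j)) (h : ∀ j, z j = c j * w j) :
    AlgebraicIndependent ℚ z := by
  let K := algebraicClosure ℚ ℂ
  let d : Fin 3 → K := fun j => ⟨c j, mem_algebraicClosure_iff.2 (ha j)⟩
  have hd : ∀ j, d j ≠ 0 := fun j e => hc j (congrArg Subtype.val e)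
  have k := hw.algebraicClosure.polynomial_aeval_of_transcendental
    (f := fun j => Polynomial.C (d j) * Polynomial.X ^ 1) (fun j => by
      refine Polynomial.transcendental _ ?_ ?_
      · rw [Polynomial.natDegree_C_mul_X_pow 1 _ (hd j)]; norm_num
      · rw [Polynomial.leadingCoeff_C_mul_X_pow]
        exact mem_nonZeroDivisors_of_ne_zero (hd j))
  refine AlgebraicIndependent.restrictScalars (A := ℂ) (algebraMap ℚ K).injective ?_
  have e : z = fun i => Polynomial.aeval (w i) (Polynomial.C (d i) * Polynomial.X ^ 1) := by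
    funext j
    simp [h, d]
  rw [e]
  exact k

theorem alg_I : IsAlgebraic ℚ Complex.I :=
  IsAlgebraic.of_pow (n := 2) two_pos (by rw [Complex.I_sq]; exact isAlgebraic_one.neg)

theorem ex_up (w : ℂ) (hw : w ≠ 0) : ∃ c : ℂ, c ≠ 0 ∧ IsAlgebraic ℚ c ∧ 0 < (c * w).im := by
  rcases lt_trichotomy w.im 0 with h | h | h
  · exact ⟨-1, by norm_num, isAlgebraic_one.neg, by simpa using h⟩
  · have hr : w.re ≠ 0 := fun e => hw (Complex.ext e h)
    rcases lt_or_gt_of_ne hr with h' | h'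
    · exact ⟨-Complex.I, by simp, alg_I.neg, by simpa using h'⟩
    · exact ⟨Complex.I, by simp, alg_I, by simpa using h'⟩
  · exact ⟨1, one_ne_zero, isAlgebraic_one, by simpa using h⟩

theorem ex_siegel : ∃ z : Fin 3 → ℂ, AlgebraicIndependent ℚ z ∧ 0 < (z 0).im ∧
    (z 1).im ^ 2 < (z 0).im * (z 2).im := by
  obtain ⟨w, hw⟩ := ex_indep
  have h0 : ∀ j, w j ≠ 0 := fun j e => hw.transcendental j (e ▸ isAlgebraic_zero)
  choose c hc hy hp using fun j => ex_up (w j) (h0 j)
  let y : Fin 3 → ℂ := fun j => c j * w j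
  have ha : 0 < (y 0).im * (y 2).im := mul_pos (hp 0) (hp 2)
  have hb : 0 < (y 1).im ^ 2 := pow_pos (hp 1) 2
  obtain ⟨q, hq0, hq⟩ := exists_rat_btwn
    (lt_min one_pos (div_pos ha hb) : (0 : ℝ) < min 1 ((y 0).im * (y 2).im / (y 1).im ^ 2))
  have hq1 : (q : ℝ) < 1 := hq.trans_le (min_le_left _ _)
  have hq2 : (q : ℝ) * (y 1).im ^ 2 < (y 0).im * (y 2).im :=
    (lt_div_iff₀ hb).1 (hq.trans_le (min_le_right _ _))
  have hq' : q ≠ 0 := by
    rintro rfl
    simp at hq0
  refine ⟨![y 0, q * y 1, y 2], indep_of_sq hw ![c 0, q * c 1, c 2] ?_ ?_ ?_, hp 0, ?_⟩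
  · intro j
    fin_cases j
    · exact hc 0
    · exact mul_ne_zero (by exact_mod_cast hq') (hc 1)
    · exact hc 2
  · intro j
    fin_cases j
    · exact hy 0
    · exact (isAlgebraic_algebraMap (R := ℚ) (A := ℂ) q).mul (hy 1)
    · exact hy 2
  · intro j
    fin_cases j
    · rfl
    · exact (mul_assoc _ _ _).symm
    · rfl
  · have : ((q : ℂ) * y 1).im = q * (y 1).im := by simp
    change ((q : ℂ) * y 1).im ^ 2 < (y 0).im * (y 2).im
    rw [this]
    nlinarith [mul_pos hq0 hb]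

end Pool.Agent.Lib.MP_d3d358_ag.Orb
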