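import Pool.Agent.Lib.MP_d3d358_ag.Orb.Stmt

/-! Working copy of the definitions of Stmt with reducible types.
The orbifold cohomology algebra (with discrete torsion) of `[N / S₃]`,
`N = {(a₀,a₁,a₂) ∈ A³ | a₀ + a₁ + a₂ = 0}`, `A` a complex 2-torus with an oriented lattice basis. -/

namespace Pool.Agent.Lib.MP_d3d358_ag.Orb

open ExteriorAlgebra TensorProduct

/-- `H¹(A, ℚ)` -/
abbrev V := Fin 4 → ℚ
/-- `H^*(A, ℚ)` -/
abbrev EA := ExteriorAlgebra ℚ V
/-- `H^*(N, ℚ)`, with `N = A × A` through the first two coordinates -/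
abbrev EN := ExteriorAlgebra ℚ (V × V)

/-- pull back along the three projections `N → A` -/
def p : Fin 3 → (V →ₗ[ℚ] V × V) :=
  ![LinearMap.inl ℚ V V, LinearMap.inr ℚ V V, -LinearMap.inl ℚ V V - LinearMap.inr ℚ V V]

/-- the action of `S₃` -/
noncomputable def act (s : Equiv.Perm (Fin 3)) : EN →ₐ[ℚ] EN :=
  map ((p (s 0)).coprod (p (s 1)))

/-- the class of a point of `A` -/
noncomputable def vol : EA := Kum.vol

theorem vol_multi : vol = ιMulti ℚ 4 (Pi.basisFun ℚ (Fin 4)) := by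
  have h : vol = ι ℚ (Pi.single 0 1 : V) * ι ℚ (Pi.single 1 1 : V) * ι ℚ (Pi.single 2 1 : V)
      * ι ℚ (Pi.single 3 1 : V) := rfl
  rw [h, ιMulti_apply]
  simp [List.ofFn_succ, mul_assoc]

/-- restriction along `a ↦ (a, a, -2a)` -/
noncomputable def res : EN →ₐ[ℚ] EA := map (LinearMap.id.coprod LinearMap.id)

/-- sum of the Gysin maps of the three fixed surfaces `a_i = a_j` -/
noncomputable def push (v : EA) : EN :=
  (1 / 2 : ℚ) • ∑ s, act s (map (p 0) v * map (p 0 - p 1) vol)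

/-- sectors of the identity, of a transposition, of a 3-cycle (functions on `A[3]`) -/
abbrev Big := EN × EA × ((Fin 4 → ZMod 3) → ℚ)

/-- the invariant part -/
noncomputable def R : Submodule ℚ Big := Kum.Inv

theorem mem_R {a : Big} : a ∈ R ↔ ∀ s, act s a.1 = a.1 := Iff.rfl

theorem coprod_p (s : Equiv.Perm (Fin 3)) (a : Fin 3) :
    (p (s 0)).coprod (p (s 1)) ∘ₗ p a = p (s a) := by
  have h : p (s 0) + p (s 1) + p (s 2) = 0 := by
    have := Equiv.sum_comp s p
    rw [Fin.sum_univ_three, Fin.sum_univ_three] at this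
    rw [this]; simp [p]
  fin_cases a
  · exact LinearMap.coprod_inl _ _
  · exact LinearMap.coprod_inr _ _
  · change _ ∘ₗ (-LinearMap.inl ℚ V V - LinearMap.inr ℚ V V) = p (s 2)
    rw [LinearMap.comp_sub, LinearMap.comp_neg, LinearMap.coprod_inl, LinearMap.coprod_inr]
    rw [eq_neg_of_add_eq_zero_right h]
    abel

theorem act_map (s : Equiv.Perm (Fin 3)) (a : Fin 3) (x : EA) :
    act s (map (p a) x) = map (p (s a)) x := by
  rw [act, ← AlgHom.comp_apply, map_comp_map, coprod_p]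

theorem act_act (s t : Equiv.Perm (Fin 3)) (u : EN) : act s (act t u) = act (s * t) u := by
  rw [act, act, ← AlgHom.comp_apply, map_comp_map, LinearMap.comp_coprod, coprod_p, coprod_p]
  rfl

theorem act_push (s : Equiv.Perm (Fin 3)) (v : EA) : act s (push v) = push v := by
  simp only [push, map_smul, map_sum, act_act]
  congr 1
  exact Equiv.sum_comp (Equiv.mulLeft s) (fun t => act t (map (p 0) v * map (p 0 - p 1) vol))

/-- the orbifold product -/
noncomputable def mul (a b : R) : R :=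
  ⟨(a.1.1 * b.1.1 - push (a.1.2.1 * b.1.2.1)
      + (2 / 3 * ∑ x, a.1.2.2 x * b.1.2.2 x) • push vol,
    res a.1.1 * b.1.2.1 + a.1.2.1 * res b.1.1
      - (2 * (algebraMapInv a.1.2.1 * ∑ x, b.1.2.2 x
          + algebraMapInv b.1.2.1 * ∑ x, a.1.2.2 x)) • vol,
    fun x => algebraMapInv a.1.1 * b.1.2.2 x + a.1.2.2 x * algebraMapInv b.1.1
      + 3 * algebraMapInv a.1.2.1 * algebraMapInv b.1.2.1),
   mem_R.2 fun s => by
    simp only [map_add, map_sub, map_mul, map_smul, act_push, mem_R.1 a.2 s, mem_R.1 b.2 s]⟩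

/-- the part of degree `k` (the sectors are shifted by 0, 2, 4) -/
noncomputable def grade (k : ℕ) : Submodule ℚ Big :=
  (⋀[ℚ]^k (V × V)).prod ((if 2 ≤ k then ⋀[ℚ]^(k - 2) V else ⊥).prod (if k = 4 then ⊤ else ⊥))

/-- the class of a point of `N` (one sixth of the class of a point of the Kummer fourfold) -/
noncomputable def pt : R :=
  ⟨((1 / 3 : ℚ) • push vol, 0, 0), mem_R.2 fun s => by simp only [map_smul, act_push]⟩

/-- `x ↦ p₀^* x + p₁^* x + p₂^* x` -/
noncomputable def til (x : EA) : R :=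
  ⟨(∑ a, map (p a) x, 0, 0), mem_R.2 fun s => by
    simp only [map_sum, act_map]
    exact Equiv.sum_comp s (fun a => map (p a) x)⟩

/-- the class of the holomorphic symplectic form for the period matrix `P` -/
noncomputable def sigma (P : Matrix (Fin 2) (Fin 4) ℂ) : ℂ ⊗[ℚ] R :=
  ∑ i, ∑ j, (P 0 i * P 1 j) ⊗ₜ[ℚ] til (ι ℚ (Pi.single i 1) * ι ℚ (Pi.single j 1))

end Pool.Agent.Lib.MP_d3d358_ag.Orb
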