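import Mathlib

/-! A list model for computing in an exterior algebra. -/

namespace Pool.Agent.Lib.MP_d3d358_ag.Orb

open ExteriorAlgebra

section
variable {W : Type} [AddCommGroup W] [Module ℚ W] (b : ℕ → W)

noncomputable def mon (l : List ℕ) : ExteriorAlgebra ℚ W := (l.map fun k => ι ℚ (b k)).prod

@[simp] theorem mon_nil : mon b [] = 1 := rfl
theorem mon_cons (a : ℕ) (l : List ℕ) : mon b (a :: l) = ι ℚ (b a) * mon b l := by
  simp [mon]
theorem mon_append (l m : List ℕ) : mon b (l ++ m) = mon b l * mon b m := by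
  simp [mon]

def ins (a : ℕ) : List ℕ → ℤ × List ℕ
  | [] => (1, [a])
  | c :: l => if a < c then (1, a :: c :: l) else if a = c then (0, [])
      else (-(ins a l).1, c :: (ins a l).2)

theorem ins_ok (a : ℕ) (l : List ℕ) :
    ι ℚ (b a) * mon b l = ((ins a l).1 : ℚ) • mon b (ins a l).2 := by
  induction l with
  | nil => simp [ins, mon_cons]
  | cons c l ih =>
    unfold ins
    split_ifs with h1 h2
    · simp [mon_cons]
    · subst h2
      rw [mon_cons, ← mul_assoc, ι_sq_zero]; simp
    · have hs : ι ℚ (b a) * ι ℚ (b c) = -(ι ℚ (b c) * ι ℚ (b a)) :=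
        eq_neg_of_add_eq_zero_left (ι_add_mul_swap _ _)
      rw [mon_cons, ← mul_assoc, hs, neg_mul, mul_assoc, ih, mon_cons]
      simp

def nf : List ℕ → ℤ × List ℕ
  | [] => (1, [])
  | a :: l => ((nf l).1 * (ins a (nf l).2).1, (ins a (nf l).2).2)

theorem nf_ok (l : List ℕ) : mon b l = ((nf l).1 : ℚ) • mon b (nf l).2 := by
  induction l with
  | nil => simp [nf]
  | cons a l ih =>
    rw [mon_cons, ih, mul_smul_comm, ins_ok, smul_smul]
    simp [nf]

abbrev Pol := List (ℤ × List ℕ)

noncomputable def ev (q : Pol) : ExteriorAlgebra ℚ W :=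
  (q.map fun t => (t.1 : ℚ) • mon b t.2).sum

@[simp] theorem ev_nil : ev b [] = 0 := rfl
theorem ev_cons (t : ℤ × List ℕ) (q : Pol) : ev b (t :: q) = (t.1 : ℚ) • mon b t.2 + ev b q := by
  simp [ev]
theorem ev_append (q r : Pol) : ev b (q ++ r) = ev b q + ev b r := by
  simp [ev]

def pm1 (t : ℤ × List ℕ) (r : Pol) : Pol := r.map fun u => (t.1 * u.1, t.2 ++ u.2)

theorem ev_pm1 (t : ℤ × List ℕ) (r : Pol) :
    ev b (pm1 t r) = ((t.1 : ℚ) • mon b t.2) * ev b r := by
  induction r with
  | nil => simp [pm1]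
  | cons u r ih =>
    have : pm1 t (u :: r) = (t.1 * u.1, t.2 ++ u.2) :: pm1 t r := rfl
    rw [this, ev_cons, ev_cons, ih, mul_add, mon_append]
    simp [smul_smul, mul_comm]

def pm : Pol → Pol → Pol
  | [], _ => []
  | t :: q, r => pm1 t r ++ pm q r

theorem ev_pm (q r : Pol) : ev b (pm q r) = ev b q * ev b r := by
  induction q with
  | nil => simp [pm]
  | cons t q ih => rw [pm, ev_append, ev_pm1, ih, ev_cons, add_mul]

def ps (c : ℤ) (q : Pol) : Pol := q.map fun u => (c * u.1, u.2)

theorem ev_ps (c : ℤ) (q : Pol) : ev b (ps c q) = (c : ℚ) • ev b q := by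
  induction q with
  | nil => simp [ps]
  | cons u r ih =>
    have : ps c (u :: r) = (c * u.1, u.2) :: ps c r := rfl
    rw [this, ev_cons, ev_cons, ih, smul_add]
    simp [smul_smul]

def ad (c : ℤ) (l : List ℕ) : Pol → Pol
  | [] => [(c, l)]
  | u :: q => if u.2 = l then (c + u.1, l) :: q else u :: ad c l q

theorem ev_ad (c : ℤ) (l : List ℕ) (q : Pol) :
    ev b (ad c l q) = (c : ℚ) • mon b l + ev b q := by
  induction q with
  | nil => simp [ad, ev_cons]
  | cons u q ih =>
    unfold ad
    split_ifs with h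
    · rw [ev_cons, ev_cons, h]; push_cast; rw [add_smul, add_assoc]
    · rw [ev_cons, ev_cons, ih]; abel

/-- normalise and collect -/
def col : Pol → Pol
  | [] => []
  | t :: q => if t.1 * (nf t.2).1 = 0 then col q else ad (t.1 * (nf t.2).1) (nf t.2).2 (col q)

theorem ev_col (q : Pol) : ev b (col q) = ev b q := by
  induction q with
  | nil => rfl
  | cons t q ih =>
    have e : (t.1 : ℚ) • mon b t.2 = ((t.1 * (nf t.2).1 : ℤ) : ℚ) • mon b (nf t.2).2 := by
      rw [nf_ok b t.2, smul_smul]; push_cast; rfl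
    unfold col
    split_ifs with h
    · rw [ev_cons, e, h, ih]; simp
    · rw [ev_ad, ev_cons, e, ih]

def pc (q r : Pol) : Pol := col (pm q r)

theorem ev_pc (q r : Pol) : ev b (pc q r) = ev b q * ev b r := by rw [pc, ev_col, ev_pm]

/-- every monomial vanishes or is a multiple of `F` -/
def okF (F : List ℕ) (q : Pol) : Bool := q.all fun t => (nf t.2).1 == 0 || (nf t.2).2 == F
def cf (q : Pol) : ℤ := (q.map fun t => t.1 * (nf t.2).1).sum

theorem ev_cf (F : List ℕ) (q : Pol) (h : okF F q = true) : ev b q = (cf q : ℚ) • mon b F := by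
  induction q with
  | nil => simp [cf]
  | cons t q ih =>
    have h' : ((nf t.2).1 == 0 || (nf t.2).2 == F) = true ∧ okF F q = true := by
      simpa [okF] using h
    have e : cf (t :: q) = t.1 * (nf t.2).1 + cf q := by simp [cf]
    rw [ev_cons, ih h'.2, e, nf_ok]
    rcases Bool.or_eq_true _ _ ▸ h'.1 with h0 | h0
    · have : (nf t.2).1 = 0 := by simpa using h0
      simp [this]
    · have : (nf t.2).2 = F := by simpa using h0
      rw [this, smul_smul, ← add_smul]
      push_cast; rfl

theorem ev_chk (F : List ℕ) (q : Pol) (c : ℤ) (h : (okF F q && cf q == c) = true) :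
    ev b q = (c : ℚ) • mon b F := by
  have h' : okF F q = true ∧ cf q = c := by simpa using h
  rw [ev_cf b F q h'.1, h'.2]

end

end Pool.Agent.Lib.MP_d3d358_ag.Orb
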