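import Pool.Agent.Lib.MP_d3d358_ag.Orb.Chk

/-! The map on the transcendental lattice is a rational multiple of the star operator. -/

namespace Pool.Agent.Lib.MP_d3d358_ag.Orb

open ExteriorAlgebra TensorProduct

noncomputable def tilL : EA →ₗ[ℚ] R :=
  LinearMap.codRestrict R (LinearMap.inl ℚ EN (EA × ((Fin 4 → ZMod 3) → ℚ)) ∘ₗ tl)
    fun x => by
      have := (til x).2
      rw [mem_R] at this ⊢
      simpa [tl_apply] using this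

theorem tilL_val (x : EA) : (tilL x).1 = (tl x, 0, 0) := rfl
theorem tilL_eq (x : EA) : tilL x = til x := by
  apply Subtype.ext
  rw [tilL_val, tl_apply]; rfl

noncomputable abbrev m2 (i j : ℕ) : EA := mon eA [i, j]

theorem res_tl2 (x y : V) : res (tl (ι ℚ x * ι ℚ y)) = (6 : ℚ) • (ι ℚ x * ι ℚ y) := by
  have h0 : ∀ v, res (ι ℚ (p 0 v)) = ι ℚ v := fun v => by simp [res, p]
  have h1 : ∀ v, res (ι ℚ (p 1 v)) = ι ℚ v := fun v => by simp [res, p]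
  simp only [tl, Fin.sum_univ_three, LinearMap.add_apply,
    AlgHom.toLinearMap_apply, map_mul, map_apply_ι, p_two, map_add, map_sub, map_neg, h0, h1]
  rw [show (6 : ℚ) = (6 : ℕ) by norm_num, Nat.cast_smul_eq_nsmul]
  noncomm_ring

theorem res_m2 (i j : ℕ) : res (tl (m2 i j)) = (6 : ℚ) • m2 i j := by
  have : m2 i j = ι ℚ (eA i) * ι ℚ (eA j) := by simp [m2, mon]
  rw [this, res_tl2]

theorem sum_six (φ : EA →ₗ[ℚ] ℚ) (P : Matrix (Fin 2) (Fin 4) ℂ) :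
    ∑ i, ∑ j, (φ (ι ℚ (Pi.single i 1) * ι ℚ (Pi.single j 1)) : ℂ) * (P 0 i * P 1 j) =
      φ (m2 0 1) * (P 0 0 * P 1 1 - P 0 1 * P 1 0) + φ (m2 0 2) * (P 0 0 * P 1 2 - P 0 2 * P 1 0)
      + φ (m2 0 3) * (P 0 0 * P 1 3 - P 0 3 * P 1 0) + φ (m2 1 2) * (P 0 1 * P 1 2 - P 0 2 * P 1 1)
      + φ (m2 1 3) * (P 0 1 * P 1 3 - P 0 3 * P 1 1)
      + φ (m2 2 3) * (P 0 2 * P 1 3 - P 0 3 * P 1 2) := by
  have e : ∀ i j : Fin 4, ι ℚ (Pi.single i 1 : V) * ι ℚ (Pi.single j 1 : V) = m2 i j := by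
    intro i j; simp [m2, mon, eA_single]
  have z : ∀ i : ℕ, m2 i i = 0 := fun i => by simp [m2, mon]
  have s : ∀ i j : ℕ, m2 i j = -m2 j i := fun i j => by
    simp only [m2, mon, List.map, List.prod_cons, List.prod_nil, mul_one]
    exact eq_neg_of_add_eq_zero_left (ι_add_mul_swap _ _)
  simp only [e, Fin.sum_univ_four]
  have v0 : ((0 : Fin 4) : ℕ) = 0 := rfl
  have v1 : ((1 : Fin 4) : ℕ) = 1 := rfl
  have v2 : ((2 : Fin 4) : ℕ) = 2 := rfl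
  have v3 : ((3 : Fin 4) : ℕ) = 3 := rfl
  rw [v0, v1, v2, v3, z 0, z 1, z 2, z 3, s 1 0, s 2 0, s 3 0, s 2 1, s 3 1, s 3 2]
  simp only [map_neg, map_zero]
  push_cast
  ring

noncomputable def Phi (l : R →ₗ[ℚ] ℚ) : ℂ ⊗[ℚ] R →ₗ[ℂ] ℂ :=
  (AlgebraTensorModule.rid ℚ ℂ ℂ).toLinearMap ∘ₗ l.baseChange ℂ

theorem Phi_tmul (l : R →ₗ[ℚ] ℚ) (c : ℂ) (r : R) : Phi l (c ⊗ₜ r) = (l r : ℂ) * c := by
  simp [Phi, Rat.smul_def]

theorem ev_poly {z : Fin 3 → ℂ} (hz : AlgebraicIndependent ℚ z) (F : MvPolynomial (Fin 3) ℚ)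
    (h : MvPolynomial.aeval z F = 0) (a b c : ℚ) : MvPolynomial.eval ![a, b, c] F = 0 := by
  rw [hz.eq_zero_of_aeval_eq_zero F h, map_zero]

open MvPolynomial in
theorem indep5 {z : Fin 3 → ℂ} (hz : AlgebraicIndependent ℚ z) (a0 a1 a2 a3 a4 : ℚ)
    (h : (a0 : ℂ) + a1 * z 0 + a2 * z 1 + a3 * z 2 + a4 * (z 0 * z 2 - z 1 ^ 2) = 0) :
    a0 = 0 ∧ a1 = 0 ∧ a2 = 0 ∧ a3 = 0 ∧ a4 = 0 := by
  have k := ev_poly hz (C a0 + C a1 * X 0 + C a2 * X 1 + C a3 * X 2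
    + C a4 * (X 0 * X 2 - X 1 ^ 2)) (by simpa using h)
  have k0 := k 0 0 0
  have k1 := k 1 0 0
  have k2 := k 0 1 0
  have k3 := k 0 0 1
  have k4 := k 0 (-1) 0
  simp at k0 k1 k2 k3 k4
  refine ⟨k0, ?_, ?_, ?_, ?_⟩ <;> linarith

open MvPolynomial in
theorem ratl {z : Fin 3 → ℂ} (hz : AlgebraicIndependent ℚ z) (a0 a1 a2 a3 a4 b0 b1 b2 b3 b4 : ℚ)
    (h : ((a0 : ℂ) + a1 * z 0 + a2 * z 1 + a3 * z 2 + a4 * (z 0 * z 2 - z 1 ^ 2))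
      * (z 0 * z 2 - z 1 ^ 2)
      = b0 + b1 * z 0 + b2 * z 1 + b3 * z 2 + b4 * (z 0 * z 2 - z 1 ^ 2)) :
    a1 = 0 ∧ a2 = 0 ∧ a3 = 0 ∧ a4 = 0 := by
  have k := ev_poly hz ((C a0 + C a1 * X 0 + C a2 * X 1 + C a3 * X 2
    + C a4 * (X 0 * X 2 - X 1 ^ 2)) * (X 0 * X 2 - X 1 ^ 2) - (C b0 + C b1 * X 0 + C b2 * X 1
    + C b3 * X 2 + C b4 * (X 0 * X 2 - X 1 ^ 2))) (by simpa [sub_eq_zero] using h)
  have k' : ∀ a b c : ℚ, (a0 + a1 * a + a2 * b + a3 * c + a4 * (a * c - b ^ 2)) * (a * c - b ^ 2)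
      - (b0 + b1 * a + b2 * b + b3 * c + b4 * (a * c - b ^ 2)) = 0 := fun a b c => by
    simpa using k a b c
  have k0 := k' 0 0 0
  have k1 := k' 0 1 0
  have k2 := k' 0 (-1) 0
  have k3 := k' 0 2 0
  have k4 := k' 0 (-2) 0
  have k5 := k' 1 0 0
  have k6 := k' 0 0 1
  have k7 := k' 1 0 1
  have k8 := k' (-1) 0 (-1)
  have k9 := k' 2 0 1
  have k10 := k' (-2) 0 (-1)
  refine ⟨?_, ?_, ?_, ?_⟩ <;> linarith

theorem ex_fun (k l : Fin 4) : ∃ L : R →ₗ[ℚ] ℚ, ∀ i j : Fin 4,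
    L (tilL (m2 i j)) = 6 * (sg i j k l : ℚ) := by
  obtain ⟨T, hT⟩ := ex_topA
  refine ⟨T ∘ₗ LinearMap.mulRight ℚ (ι ℚ (eA l)) ∘ₗ LinearMap.mulRight ℚ (ι ℚ (eA k)) ∘ₗ
    res.toLinearMap ∘ₗ LinearMap.fst ℚ _ _ ∘ₗ R.subtype, fun i j => ?_⟩
  change T (res (tl (m2 i j)) * ι ℚ (eA k) * ι ℚ (eA l)) = _
  rw [res_m2, smul_mul_assoc, smul_mul_assoc, quad_eq]
  simp [hT]

theorem hodge_abs {z : Fin 3 → ℂ} (hz : AlgebraicIndependent ℚ z) {M : Type} [AddCommGroup M]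
    [Module ℚ M] (G01 G02 G03 G12 G13 G23 X01 X02 X03 X12 X13 X23 : M) (u : ℂ)
    (E : ∀ L : M →ₗ[ℚ] ℚ, ((5 * L G02 : ℚ) : ℂ) + ((5 * L G12 : ℚ) : ℂ) * z 0
        + ((L G01 - 5 * L G23 : ℚ) : ℂ) * z 1
        + (L G03 : ℂ) * z 2 + (L G13 : ℂ) * (z 0 * z 2 - z 1 ^ 2)
      = u * (-5 * L X13 + 5 * L X03 * z 0 + (L X23 - 5 * L X01) * z 1 + L X12 * z 2
        - L X02 * (z 0 * z 2 - z 1 ^ 2)))
    (L0 L1 : M →ₗ[ℚ] ℚ) (a01 : L0 X01 = 0) (a02 : L0 X02 = 0) (a03 : L0 X03 = 0)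
    (a12 : L0 X12 = 0) (a13 : L0 X13 = -6) (a23 : L0 X23 = 0) (b01 : L1 X01 = 0)
    (b02 : L1 X02 = -6) (b03 : L1 X03 = 0) (b12 : L1 X12 = 0) (b13 : L1 X13 = 0)
    (b23 : L1 X23 = 0) :
    ∃ τ : ℚ, G02 = (-τ) • X13 ∧ G12 = τ • X03 ∧
      G01 - (5 : ℚ) • G23 = τ • (X23 - (5 : ℚ) • X01) ∧ G03 = τ • X12 ∧ G13 = (-τ) • X02 := by
  have E0 := E L0
  have E1 := E L1
  simp only [a01, a02, a03, a12, a13, a23] at E0
  simp only [b01, b02, b03, b12, b13, b23] at E1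
  generalize 5 * L0 G02 = c0 at E0
  generalize 5 * L0 G12 = c1 at E0
  generalize L0 G01 - 5 * L0 G23 = c2 at E0
  generalize L0 G03 = c3 at E0
  generalize L0 G13 = c4 at E0
  generalize 5 * L1 G02 = d0 at E1
  generalize 5 * L1 G12 = d1 at E1
  generalize L1 G01 - 5 * L1 G23 = d2 at E1
  generalize L1 G03 = d3 at E1
  generalize L1 G13 = d4 at E1
  obtain ⟨r1, r2, r3, r4⟩ := ratl hz c0 c1 c2 c3 c4 (5 * d0) (5 * d1) (5 * d2) (5 * d3) (5 * d4) (by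
      rw [E0]
      push_cast at E1 ⊢
      linear_combination -5 * E1)
  rw [r1, r2, r3, r4] at E0
  obtain ⟨τ, hτ⟩ : ∃ τ : ℚ, u = τ := ⟨c0 / 30, by
    push_cast at E0 ⊢
    linear_combination -E0 / 30⟩
  have F := fun L : M →ₗ[ℚ] ℚ => indep5 hz
    (5 * L G02 + τ * (5 * L X13))
    (5 * L G12 - τ * (5 * L X03))
    (L G01 - 5 * L G23
      - τ * (L X23 - 5 * L X01))
    (L G03 - τ * L X12)
    (L G13 + τ * L X02) (by
      have := E L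
      rw [hτ] at this
      push_cast at this ⊢
      linear_combination this)
  have sep : ∀ a b : M, (∀ L : M →ₗ[ℚ] ℚ, L a = L b) → a = b := fun a b hab =>
    sub_eq_zero.1 ((Module.forall_dual_apply_eq_zero_iff ℚ (a - b)).1 fun L => by
      rw [map_sub, hab L, sub_self])
  refine ⟨τ, sep _ _ fun L => ?_, sep _ _ fun L => ?_, sep _ _ fun L => ?_, sep _ _ fun L => ?_,
    sep _ _ fun L => ?_⟩ <;> obtain ⟨f0, f1, f2, f3, f4⟩ := F L <;>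
    simp only [map_smul, map_sub, smul_eq_mul] <;> linarith

theorem hodge {z : Fin 3 → ℂ} (hz : AlgebraicIndependent ℚ z) (Q : Matrix (Fin 2) (Fin 4) ℂ)
    (hQ : Q * (!![1, z 0, 0, z 1; 0, z 1, 5, z 2] : Matrix (Fin 2) (Fin 4) ℂ).transpose = 0)
    (g : R →ₗ[ℚ] R) (t : ℂ)
    (h : g.baseChange ℂ (sigma !![1, z 0, 0, z 1; 0, z 1, 5, z 2]) = t • sigma Q) :
    ∃ τ : ℚ, g (tilL (m2 0 2)) = tilL ((-τ) • m2 1 3) ∧ g (tilL (m2 1 2)) = tilL (τ • m2 0 3) ∧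
      g (tilL (m2 0 1 - (5 : ℚ) • m2 2 3)) = tilL (τ • (m2 2 3 - (5 : ℚ) • m2 0 1)) ∧
      g (tilL (m2 0 3)) = tilL (τ • m2 1 2) ∧ g (tilL (m2 1 3)) = tilL ((-τ) • m2 0 2) := by
  have q0 : ∀ a, Q a 0 = -(z 0 * Q a 1) - z 1 * Q a 3 := fun a => by
    have := congrFun (congrFun hQ a) 0
    simp [Matrix.mul_apply, Fin.sum_univ_four] at this
    linear_combination this
  have q2 : ∀ a, Q a 2 = -(z 1 * Q a 1 + z 2 * Q a 3) / 5 := fun a => by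
    have := congrFun (congrFun hQ a) 1
    simp [Matrix.mul_apply, Fin.sum_univ_four] at this
    linear_combination this / 5
  obtain ⟨u, hu⟩ : ∃ u : ℂ, u = -(t * (Q 0 1 * Q 1 3 - Q 0 3 * Q 1 1)) / 5 := ⟨_, rfl⟩
  have E : ∀ L : R →ₗ[ℚ] ℚ,
      ((5 * L (g (tilL (m2 0 2))) : ℚ) : ℂ) + ((5 * L (g (tilL (m2 1 2))) : ℚ) : ℂ) * z 0
        + ((L (g (tilL (m2 0 1))) - 5 * L (g (tilL (m2 2 3))) : ℚ) : ℂ) * z 1
        + (L (g (tilL (m2 0 3))) : ℂ) * z 2 + (L (g (tilL (m2 1 3))) : ℂ) * (z 0 * z 2 - z 1 ^ 2)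
      = u * (-5 * L (tilL (m2 1 3)) + 5 * L (tilL (m2 0 3)) * z 0
        + (L (tilL (m2 2 3)) - 5 * L (tilL (m2 0 1))) * z 1 + L (tilL (m2 1 2)) * z 2
        - L (tilL (m2 0 2)) * (z 0 * z 2 - z 1 ^ 2)) := by
    intro L
    have k := congrArg (Phi L) h
    simp only [sigma, map_sum, map_smul, LinearMap.baseChange_tmul, Phi_tmul, ← tilL_eq] at k
    have k1 := sum_six (L ∘ₗ g ∘ₗ tilL) !![1, z 0, 0, z 1; 0, z 1, 5, z 2]
    have k2 := sum_six (L ∘ₗ tilL) Q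
    simp only [LinearMap.comp_apply] at k1 k2
    rw [k1, k2, q0 0, q0 1, q2 0, q2 1] at k
    simp at k
    rw [hu]
    push_cast
    linear_combination k
  obtain ⟨L0, h0⟩ := ex_fun 0 2
  obtain ⟨L1, h1⟩ := ex_fun 1 3
  have a01 : L0 (tilL (m2 0 1)) = 0 := (h0 0 1).trans (by decide +kernel)
  have a02 : L0 (tilL (m2 0 2)) = 0 := (h0 0 2).trans (by decide +kernel)
  have a03 : L0 (tilL (m2 0 3)) = 0 := (h0 0 3).trans (by decide +kernel)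
  have a12 : L0 (tilL (m2 1 2)) = 0 := (h0 1 2).trans (by decide +kernel)
  have a13 : L0 (tilL (m2 1 3)) = -6 := (h0 1 3).trans (by decide +kernel)
  have a23 : L0 (tilL (m2 2 3)) = 0 := (h0 2 3).trans (by decide +kernel)
  have b01 : L1 (tilL (m2 0 1)) = 0 := (h1 0 1).trans (by decide +kernel)
  have b02 : L1 (tilL (m2 0 2)) = -6 := (h1 0 2).trans (by decide +kernel)
  have b03 : L1 (tilL (m2 0 3)) = 0 := (h1 0 3).trans (by decide +kernel)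
  have b12 : L1 (tilL (m2 1 2)) = 0 := (h1 1 2).trans (by decide +kernel)
  have b13 : L1 (tilL (m2 1 3)) = 0 := (h1 1 3).trans (by decide +kernel)
  have b23 : L1 (tilL (m2 2 3)) = 0 := (h1 2 3).trans (by decide +kernel)
  simp only [map_smul, map_sub]
  exact hodge_abs hz _ _ _ _ _ _ _ _ _ _ _ _ u E L0 L1 a01 a02 a03 a12 a13 a23 b01 b02 b03 b12 b13
    b23

end Pool.Agent.Lib.MP_d3d358_ag.Orb
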