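import Pool.Agent.Lib.MP_d3d358_ag.Orb.Hodge

/-! No Frobenius isomorphism. -/

namespace Pool.Agent.Lib.MP_d3d358_ag.Orb

open ExteriorAlgebra TensorProduct

theorem no_int (e : ℤ) (he : e = 3 ∨ e = -3) :
    ∀ (n : ℕ) (a b c : ℤ), c.natAbs = n → a ^ 2 - 15 * b ^ 2 = e * c ^ 2 → c = 0 := by
  intro n
  induction n using Nat.strong_induction_on with
  | _ n ih =>
    intro a b c hn h
    have k : ∀ x y : ZMod 5, (x ^ 2 = 3 * y ^ 2 ∨ x ^ 2 = -3 * y ^ 2) → x = 0 ∧ y = 0 := by decide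
    have h5 : ((a : ZMod 5)) ^ 2 = (e : ZMod 5) * (c : ZMod 5) ^ 2 := by
      have := congrArg (Int.cast : ℤ → ZMod 5) h
      push_cast at this
      have z : (15 : ZMod 5) = 0 := by decide
      rw [z] at this
      simpa using this
    obtain ⟨ha, hc⟩ := k a c (by rcases he with rfl | rfl <;> [left; right] <;> simpa using h5)
    obtain ⟨a', rfl⟩ := (ZMod.intCast_zmod_eq_zero_iff_dvd a 5).1 ha
    obtain ⟨c', rfl⟩ := (ZMod.intCast_zmod_eq_zero_iff_dvd c 5).1 hc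
    push_cast at h hn ⊢
    have hb : (5 : ℤ) ∣ b := by
      have h1 : (5 : ℤ) ∣ 3 * b ^ 2 := ⟨a' ^ 2 - e * c' ^ 2, by linarith⟩
      have p5 : Prime (5 : ℤ) := Int.prime_iff_natAbs_prime.2 (by norm_num)
      rcases p5.dvd_or_dvd h1 with h2 | h2
      · norm_num at h2
      · exact p5.dvd_of_dvd_pow h2
    obtain ⟨b', rfl⟩ := hb
    by_contra hc0
    have hc' : c' ≠ 0 := by rintro rfl; simp at hc0
    exact hc' (ih c'.natAbs (by omega) a' b' c' rfl (by linarith))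

theorem no_rat (s r τ : ℚ) (hτ : τ = 1 ∨ τ = -1) : τ * (s ^ 2 - 15 * r ^ 2) ≠ 3 := by
  intro h
  have hs : (s.num : ℚ) = s * s.den := (Rat.mul_den_eq_num s).symm
  have hr : (r.num : ℚ) = r * r.den := (Rat.mul_den_eq_num r).symm
  have key : ∀ e : ℤ, (e = 3 ∨ e = -3) → s ^ 2 - 15 * r ^ 2 = e → False := by
    intro e he h'
    have := no_int e he _ (s.num * r.den) (r.num * s.den) (s.den * r.den) rfl (by
      have : ((s.num * r.den : ℤ) : ℚ) ^ 2 - 15 * ((r.num * s.den : ℤ) : ℚ) ^ 2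
          = e * ((s.den * r.den : ℤ) : ℚ) ^ 2 := by
        push_cast; rw [hs, hr, ← h']; ring
      exact_mod_cast this)
    have h1 : (s.den : ℤ) ≠ 0 := by exact_mod_cast s.den_nz
    have h2 : (r.den : ℤ) ≠ 0 := by exact_mod_cast r.den_nz
    exact mul_ne_zero h1 h2 this
  rcases hτ with rfl | rfl
  · exact key 3 (Or.inl rfl) (by push_cast; linarith)
  · exact key (-3) (Or.inr rfl) (by push_cast; linarith)

theorem aMI_iota (v : V) : algebraMapInv (ι ℚ v : EA) = 0 := by simp [algebraMapInv]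

theorem mul_uu (a b : R) (u u' : EN) (ha : a.1 = (u, 0, 0)) (hb : b.1 = (u', 0, 0)) :
    (mul a b).1 = (u * u', 0, 0) := by
  simp only [mul, ha, hb]
  refine Prod.ext ?_ (Prod.ext ?_ ?_)
  · simp [push_zero]
  · simp
  · funext x; simp

theorem mul_t3 (w : EA) (a : R) (u : EN) (v : V) (ha : a.1 = (u, ι ℚ v, 0)) :
    (mul (tilL w) a).1 = (tl w * u, res (tl w) * ι ℚ v, 0) := by
  simp only [mul, ha, tilL_val]
  refine Prod.ext ?_ (Prod.ext ?_ ?_)
  · simp [push_zero]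
  · simp
  · funext x; simp

theorem mul_fst (a b : R) (u u' : EN) (v v' : EA) (ha : a.1 = (u, v, 0)) (hb : b.1 = (u', v', 0)) :
    (mul a b).1.1 = u * u' - push (v * v') := by
  simp [mul, ha, hb]

noncomputable def uu (α : Fin 4 → ℚ) : EN := ∑ k, α k • tl (mon eA (yL k))

theorem uu_add (α β : Fin 4 → ℚ) : uu (α + β) = uu α + uu β := by
  simp [uu, add_smul, Finset.sum_add_distrib]

theorem formN (i j : Fin 4) (h : i < j) (α β : Fin 4 → ℚ) :
    tl (m2 i j) * uu α * uu β = (∑ l, ∑ k, β l * (α k * (tb i j k l : ℚ))) • mon eN FN := by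
  simp only [uu, Finset.mul_sum, Finset.sum_mul, mul_smul_comm, smul_mul_assoc, tri_eq _ _ _ _ h,
    Finset.sum_smul, Finset.smul_sum, smul_smul]

theorem formA (i j : Fin 4) (v w : V) :
    m2 i j * ι ℚ v * ι ℚ w = (∑ l, ∑ k, w l * (v k * (sg i j k l : ℚ))) • mon eA FA := by
  rw [iota_expand v, iota_expand w]
  simp only [Finset.mul_sum, Finset.sum_mul, mul_smul_comm, smul_mul_assoc, quad_eq,
    Finset.sum_smul, Finset.smul_sum, smul_smul]

theorem N01 (α β) : tl (m2 0 1) * uu α * uu β = (6 * (α 0 * β 1 - α 1 * β 0)) • mon eN FN :=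
  (formN 0 1 (by decide) α β).trans (by congr 1; simp [Fin.sum_univ_four, tb]; ring)
theorem N02 (α β) : tl (m2 0 2) * uu α * uu β = (-6 * (α 0 * β 2 - α 2 * β 0)) • mon eN FN :=
  (formN 0 2 (by decide) α β).trans (by congr 1; simp [Fin.sum_univ_four, tb]; ring)
theorem N03 (α β) : tl (m2 0 3) * uu α * uu β = (6 * (α 0 * β 3 - α 3 * β 0)) • mon eN FN :=
  (formN 0 3 (by decide) α β).trans (by congr 1; simp [Fin.sum_univ_four, tb]; ring)
theorem N12 (α β) : tl (m2 1 2) * uu α * uu β = (6 * (α 1 * β 2 - α 2 * β 1)) • mon eN FN :=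
  (formN 1 2 (by decide) α β).trans (by congr 1; simp [Fin.sum_univ_four, tb]; ring)
theorem N13 (α β) : tl (m2 1 3) * uu α * uu β = (-6 * (α 1 * β 3 - α 3 * β 1)) • mon eN FN :=
  (formN 1 3 (by decide) α β).trans (by congr 1; simp [Fin.sum_univ_four, tb]; ring)
theorem N23 (α β) : tl (m2 2 3) * uu α * uu β = (6 * (α 2 * β 3 - α 3 * β 2)) • mon eN FN :=
  (formN 2 3 (by decide) α β).trans (by congr 1; simp [Fin.sum_univ_four, tb]; ring)

theorem A01 (v w : V) : m2 0 1 * ι ℚ v * ι ℚ w = (v 2 * w 3 - v 3 * w 2) • mon eA FA :=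
  (formA 0 1 v w).trans (by congr 1; simp [Fin.sum_univ_four, sg, nf, ins]; ring)
theorem A02 (v w : V) : m2 0 2 * ι ℚ v * ι ℚ w = (v 3 * w 1 - v 1 * w 3) • mon eA FA :=
  (formA 0 2 v w).trans (by congr 1; simp [Fin.sum_univ_four, sg, nf, ins]; ring)
theorem A03 (v w : V) : m2 0 3 * ι ℚ v * ι ℚ w = (v 1 * w 2 - v 2 * w 1) • mon eA FA :=
  (formA 0 3 v w).trans (by congr 1; simp [Fin.sum_univ_four, sg, nf, ins]; ring)
theorem A12 (v w : V) : m2 1 2 * ι ℚ v * ι ℚ w = (v 0 * w 3 - v 3 * w 0) • mon eA FA :=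
  (formA 1 2 v w).trans (by congr 1; simp [Fin.sum_univ_four, sg, nf, ins]; ring)
theorem A13 (v w : V) : m2 1 3 * ι ℚ v * ι ℚ w = (v 2 * w 0 - v 0 * w 2) • mon eA FA :=
  (formA 1 3 v w).trans (by congr 1; simp [Fin.sum_univ_four, sg, nf, ins]; ring)
theorem A23 (v w : V) : m2 2 3 * ι ℚ v * ι ℚ w = (v 0 * w 1 - v 1 * w 0) • mon eA FA :=
  (formA 2 3 v w).trans (by congr 1; simp [Fin.sum_univ_four, sg, nf, ins]; ring)

theorem m2_mul (i j k : ℕ) :
    m2 i j * ι ℚ (eA k) = ((nf [i, j, k]).1 : ℚ) • mon eA (nf [i, j, k]).2 := by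
  rw [← nf_ok]; simp [m2, mon, mul_assoc]

theorem zN {c : ℚ} (h : c • mon eN FN = 0) : c = 0 := smul_FN_inj (by rw [h, zero_smul])
theorem zA {c : ℚ} (h : c • mon eA FA = 0) : c = 0 := smul_FA_inj (by rw [h, zero_smul])

theorem ker_step (g : R →ₗ[ℚ] R) (hm : ∀ a b, g (mul a b) = mul (g a) (g b)) (w w' : EA)
    (hw : g (tilL w) = tilL w') (v0 v : V) (u : EN) (hg : (g (tw v0)).1 = (u, ι ℚ v, 0))
    (h0 : res (tl w) * ι ℚ v0 = 0) : tl w' * u = 0 ∧ res (tl w') * ι ℚ v = 0 := by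
  have e : mul (tilL w) (tw v0) = 0 := by
    apply Subtype.ext
    rw [mul_t3 w (tw v0) 0 v0 rfl, h0, mul_zero]; rfl
  have k := hm (tilL w) (tw v0)
  rw [e, map_zero, hw] at k
  have k' := mul_t3 w' _ u v hg
  rw [← k] at k'
  exact ⟨(congrArg Prod.fst k').symm, (congrArg (fun x => x.2.1) k').symm⟩

theorem four_pt (c : ℚ) :
    mul (mul (tilL (c • (m2 0 2 + m2 1 3))) (tilL (c • (m2 0 2 + m2 1 3))))
      (mul (tilL (c • (m2 0 2 + m2 1 3))) (tilL (c • (m2 0 2 + m2 1 3)))) = (c ^ 4 * 216) • pt := by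
  apply Subtype.ext
  rw [mul_uu _ _ _ _ (mul_uu _ _ _ _ (tilL_val _) (tilL_val _))
    (mul_uu _ _ _ _ (tilL_val _) (tilL_val _)), Submodule.coe_smul, pt_eq]
  simp only [map_smul, smul_mul_assoc, mul_smul_comm, four_eq, smul_smul, Prod.smul_mk, smul_zero]
  congr 2
  ring

theorem tau_pm (g : R →ₗ[ℚ] R) (hm : ∀ a b, g (mul a b) = mul (g a) (g b)) (hpt : g pt = pt)
    (τ : ℚ) (g02 : g (tilL (m2 0 2)) = tilL ((-τ) • m2 1 3))
    (g13 : g (tilL (m2 1 3)) = tilL ((-τ) • m2 0 2)) : τ = 1 ∨ τ = -1 := by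
  have e : g (tilL ((1 : ℚ) • (m2 0 2 + m2 1 3))) = tilL ((-τ) • (m2 0 2 + m2 1 3)) := by
    rw [one_smul, map_add, map_add, g02, g13, ← map_add, smul_add, add_comm]
  have k := congrArg g (four_pt 1)
  rw [hm, hm, e, four_pt, map_smul, hpt] at k
  have k1 := congrArg (fun x : R => x.1.1) k
  simp only [Submodule.coe_smul, pt_eq, Prod.smul_mk] at k1
  have k2 := smul_FN_inj k1
  have k3 : (τ - 1) * (τ + 1) * (τ ^ 2 + 1) = 0 := by linarith
  rcases mul_eq_zero.1 k3 with k4 | k4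
  · rcases mul_eq_zero.1 k4 with k5 | k5
    · left; linarith
    · right; linarith
  · nlinarith [sq_nonneg τ]

theorem eval_X : mul (mul (tilL (m2 1 3)) (tw (eA 0))) (tw (eA 2)) = (18 : ℚ) • pt := by
  apply Subtype.ext
  have q := mul_t3 (m2 1 3) (tw (eA 0)) 0 (eA 0) rfl
  rw [Submodule.coe_smul, pt_eq]
  refine Prod.ext ?_ (Prod.ext ?_ ?_)
  · rw [mul_fst _ _ _ 0 _ (ι ℚ (eA 2)) q rfl, res_m2, smul_mul_assoc, smul_mul_assoc, A13,
      smul_smul, push_smul, ← vol_eq, push_vol, smul_smul]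
    simp [eA, ← neg_smul]
    norm_num
  · simp [mul, tw, tilL_val, push_zero]
  · funext x
    simp [mul, tw, tilL_val, aMI_iota]

theorem no_iso {z : Fin 3 → ℂ} (hz : AlgebraicIndependent ℚ z) (Q : Matrix (Fin 2) (Fin 4) ℂ)
    (hQ : Q * (!![1, z 0, 0, z 1; 0, z 1, 5, z 2] : Matrix (Fin 2) (Fin 4) ℂ).transpose = 0)
    (g : R →ₗ[ℚ] R) (t : ℂ) (h3 : ∀ a : R, a.1 ∈ grade 3 → (g a).1 ∈ grade 3)
    (hm : ∀ a b, g (mul a b) = mul (g a) (g b)) (hpt : g pt = pt)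
    (h : g.baseChange ℂ (sigma !![1, z 0, 0, z 1; 0, z 1, 5, z 2]) = t • sigma Q) : False := by
  obtain ⟨τ, g02, g12, g01, g03, g13⟩ := hodge hz Q hQ g t h
  have hτ := tau_pm g hm hpt τ g02 g13
  have h0 : τ ≠ 0 := by rcases hτ with rfl | rfl <;> norm_num
  obtain ⟨α, v, ha⟩ := grade3 _ (h3 _ (tw_mem (eA 0)))
  obtain ⟨β, w, hb⟩ := grade3 _ (h3 _ (tw_mem (eA 2)))
  change _ = (uu α, _, _) at ha
  change _ = (uu β, _, _) at hb
  have hc : (g (tw (eA 0 + eA 2))).1 = (uu (α + β), ι ℚ (v + w), 0) := by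
    rw [tw_add, map_add, Submodule.coe_add, ha, hb, uu_add, map_add]; simp
  obtain ⟨n1, m1⟩ := ker_step g hm _ _ g02 _ _ _ ha (by simp [res_m2, m2_mul, nf, ins])
  obtain ⟨n2, m2'⟩ := ker_step g hm _ _ g03 _ _ _ ha (by simp [res_m2, m2_mul, nf, ins])
  obtain ⟨n3, m3⟩ := ker_step g hm _ _ g02 _ _ _ hb (by simp [res_m2, m2_mul, nf, ins])
  obtain ⟨n4, m4⟩ := ker_step g hm _ _ g12 _ _ _ hb (by simp [res_m2, m2_mul, nf, ins])
  have gs : g (tilL (m2 0 1 - (5 : ℚ) • m2 2 3 - (5 : ℚ) • m2 0 3 - m2 1 2)) =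
      tilL (τ • (m2 2 3 - (5 : ℚ) • m2 0 1) - (5 : ℚ) • τ • m2 1 2 - τ • m2 0 3) := by
    rw [map_sub, map_sub, map_sub, map_sub, map_smul, map_smul, g01, g03, g12, ← map_smul,
      ← map_sub, ← map_sub]
  obtain ⟨n5, m5⟩ := ker_step g hm _ _ gs _ _ _ hc (by
    simp [res_m2, m2_mul, nf, ins, sub_mul, mul_add]
    abel)
  have t1 := fun γ => congrArg (· * uu γ) n1
  have t2 := fun γ => congrArg (· * uu γ) n2
  have t3 := fun γ => congrArg (· * uu γ) n3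
  have t4 := fun γ => congrArg (· * uu γ) n4
  have t5 := fun γ => congrArg (· * uu γ) n5
  have s1 := fun γ : V => congrArg (· * ι ℚ γ) m1
  have s2 := fun γ : V => congrArg (· * ι ℚ γ) m2'
  have s3 := fun γ : V => congrArg (· * ι ℚ γ) m3
  have s4 := fun γ : V => congrArg (· * ι ℚ γ) m4
  have s5 := fun γ : V => congrArg (· * ι ℚ γ) m5
  simp only [map_smul, map_sub, res_m2, smul_mul_assoc, sub_mul, zero_mul, N01, N03, N12, N13, N23,
    A01, A03, A12, A13, A23, smul_smul, ← sub_smul] at t1 t2 t3 t4 t5 s1 s2 s3 s4 s5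
  have a1 : α 1 = 0 := by simpa [h0] using zN (t1 ![0, 0, 0, 1])
  have a3 : α 3 = 0 := by simpa [h0] using zN (t1 ![0, 1, 0, 0])
  have a2 : α 2 = 0 := by simpa [h0] using zN (t2 ![0, 1, 0, 0])
  have b0 : β 0 = 0 := by simpa [h0] using zN (t4 ![0, 0, 0, 1])
  have v3 : v 3 = 0 := by simpa [h0] using zA (s2 ![1, 0, 0, 0])
  have w1 : w 1 = 0 := by simpa [h0] using zA (s4 ![0, 0, 1, 0])
  have c1 : β 2 = α 0 := by
    have := zN (t5 ![0, 0, 0, 1])
    simp [a2, b0] at this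
    apply mul_left_cancel₀ h0
    linarith
  have c2 : v 1 = 5 * w 3 := by
    have := zA (s5 ![1, 0, 0, 0])
    simp [v3, w1] at this
    apply mul_left_cancel₀ h0
    linarith
  have k := congrArg g eval_X
  rw [hm, hm, g13, g.map_smul, hpt] at k
  have k1 := congrArg (fun x : R => x.1.1) k
  simp only [Submodule.coe_smul, pt_eq, Prod.smul_mk] at k1
  rw [mul_fst _ _ _ _ _ _ (mul_t3 _ _ _ _ ha) hb] at k1
  simp only [map_smul, res_m2, smul_mul_assoc, N02, A02, smul_smul, push_smul, ← vol_eq, push_vol,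
    ← sub_smul] at k1
  have k2 := smul_FN_inj k1
  rw [c1, c2, a2, v3] at k2
  exact no_rat (α 0) (w 3) τ hτ (by linarith)

end Pool.Agent.Lib.MP_d3d358_ag.Orb
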