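import Mathlib

/-! The orbifold cohomology algebra (with discrete torsion) of `[N / S₃]`,
`N = {(a₀,a₁,a₂) ∈ A³ | a₀ + a₁ + a₂ = 0}`, `A` a complex 2-torus with an oriented lattice basis.
All types are plain synonyms of Mathlib types with the Mathlib structures. -/

namespace Pool.Agent.Lib.MP_d3d358_ag.Kum

open TensorProduct

section
variable (U : Type) [AddCommGroup U] [Module ℚ U]

/-- the exterior algebra -/
def E : Type := ExteriorAlgebra ℚ U
noncomputable instance ringE : Ring (E U) := CliffordAlgebra.instRing _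
noncomputable instance algE : Algebra ℚ (E U) := CliffordAlgebra.instAlgebra _

/-- its part of degree `k` -/
noncomputable def deg (k : ℕ) : Submodule ℚ (E U) := ⋀[ℚ]^k U

variable {U} {U' : Type} [AddCommGroup U'] [Module ℚ U']

/-- the element of degree one -/
noncomputable def gen (u : U) : E U := ExteriorAlgebra.ι ℚ u

/-- the component of degree zero -/
noncomputable def eps (x : E U) : ℚ := ExteriorAlgebra.algebraMapInv x

/-- the algebra map induced by a linear map -/
noncomputable def pull (f : U →ₗ[ℚ] U') : E U →ₐ[ℚ] E U' := ExteriorAlgebra.map f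

theorem pull_pull {U'' : Type} [AddCommGroup U''] [Module ℚ U''] (f : U →ₗ[ℚ] U')
    (g : U' →ₗ[ℚ] U'') (x : E U) : pull g (pull f x) = pull (g ∘ₗ f) x :=
  DFunLike.congr_fun (ExteriorAlgebra.map_comp_map f g) x

end

/-- `H¹(A, ℚ)`; `E V` is `H^*(A, ℚ)` -/
def V : Type := Fin 4 → ℚ
instance grpV : AddCommGroup V := Pi.addCommGroup
instance modV : Module ℚ V := Pi.Function.module _ _ _

/-- the basis dual to the lattice basis -/
def e (i : Fin 4) : V := Pi.single i 1

/-- `H¹(N, ℚ)`, with `N = A × A` through the first two coordinates; `E W` is `H^*(N, ℚ)` -/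
def W : Type := V × V
instance grpW : AddCommGroup W := Prod.instAddCommGroup
instance modW : Module ℚ W := Prod.instModule

/-- pull back along the first projection -/
def p0 : V →ₗ[ℚ] W := LinearMap.inl ℚ V V
/-- pull back along the second projection -/
def p1 : V →ₗ[ℚ] W := LinearMap.inr ℚ V V
/-- pull back along the three projections `N → A` -/
def p : Fin 3 → (V →ₗ[ℚ] W) := ![p0, p1, -p0 - p1]

/-- the map `W = V × V → U` with components `f`, `g` -/
def pair {U : Type} [AddCommGroup U] [Module ℚ U] (f g : V →ₗ[ℚ] U) : W →ₗ[ℚ] U := f.coprod g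

/-- the action of `S₃` -/
noncomputable def act (s : Equiv.Perm (Fin 3)) : E W →ₐ[ℚ] E W := pull (pair (p (s 0)) (p (s 1)))

/-- the class of a point of `A` -/
noncomputable def vol : E V := gen (e 0) * gen (e 1) * gen (e 2) * gen (e 3)

/-- restriction along `a ↦ (a, a, -2a)` -/
noncomputable def res : E W →ₐ[ℚ] E V := pull (pair LinearMap.id LinearMap.id)

/-- sum of the Gysin maps of the three fixed surfaces `a_i = a_j` -/
noncomputable def push (v : E V) : E W :=
  (1 / 2 : ℚ) • ∑ s, act s (pull (p 0) v * pull (p 0 - p 1) vol)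

/-- functions on the 3-torsion `A[3]` -/
def T : Type := (Fin 4 → ZMod 3) → ℚ
instance grpT : AddCommGroup T := Pi.addCommGroup
instance modT : Module ℚ T := Pi.Function.module _ _ _

/-- sectors of the identity, of a transposition, of a 3-cycle -/
def Big : Type := E W × E V × T
noncomputable instance grpBig : AddCommGroup Big := Prod.instAddCommGroup
noncomputable instance modBig : Module ℚ Big := Prod.instModule

/-- the invariant part -/
noncomputable def Inv : Submodule ℚ Big where
  carrier := {a | ∀ s, act s a.1 = a.1}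
  zero_mem' := fun s => map_zero (act s)
  add_mem' := fun {a b} ha hb s => (map_add (act s) a.1 b.1).trans (congrArg₂ _ (ha s) (hb s))
  smul_mem' := fun c a ha s => (map_smul (act s) c a.1).trans (congrArg _ (ha s))

/-- the same as a type -/
def R : Type := Inv
noncomputable instance grpR : AddCommGroup R := Submodule.addCommGroup Inv
noncomputable instance modR : Module ℚ R := Submodule.module Inv

theorem pair_p (s : Equiv.Perm (Fin 3)) (a : Fin 3) :
    pair (p (s 0)) (p (s 1)) ∘ₗ p a = p (s a) := by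
  have h : p (s 0) + p (s 1) + p (s 2) = 0 := by
    have := Equiv.sum_comp s p
    rw [Fin.sum_univ_three, Fin.sum_univ_three] at this
    rw [this]; simp [p]
  have h0 : pair (p (s 0)) (p (s 1)) ∘ₗ p0 = p (s 0) := LinearMap.coprod_inl _ _
  have h1 : pair (p (s 0)) (p (s 1)) ∘ₗ p1 = p (s 1) := LinearMap.coprod_inr _ _
  fin_cases a
  · exact h0
  · exact h1
  · change _ ∘ₗ (-p0 - p1) = p (s 2)
    rw [LinearMap.comp_sub, LinearMap.comp_neg, h0, h1, eq_neg_of_add_eq_zero_right h]
    abel

theorem act_pull (s : Equiv.Perm (Fin 3)) (a : Fin 3) (x : E V) :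
    act s (pull (p a) x) = pull (p (s a)) x := by
  rw [act, pull_pull, pair_p]

theorem act_act (s t : Equiv.Perm (Fin 3)) (u : E W) : act s (act t u) = act (s * t) u := by
  rw [act, act, pull_pull]
  have h : pair (p (s 0)) (p (s 1)) ∘ₗ pair (p (t 0)) (p (t 1))
      = pair (pair (p (s 0)) (p (s 1)) ∘ₗ p (t 0)) (pair (p (s 0)) (p (s 1)) ∘ₗ p (t 1)) :=
    LinearMap.comp_coprod _ _ _
  rw [h, pair_p, pair_p]
  rfl

theorem act_push (s : Equiv.Perm (Fin 3)) (v : E V) : act s (push v) = push v := by
  simp only [push, map_smul, map_sum, act_act]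
  congr 1
  exact Equiv.sum_comp (Equiv.mulLeft s) (fun t => act t (pull (p 0) v * pull (p 0 - p 1) vol))

/-- the product formula: first component -/
noncomputable def mul1 (a b : Big) : E W :=
  a.1 * b.1 - push (a.2.1 * b.2.1) + (2 / 3 * ∑ x, a.2.2 x * b.2.2 x) • push vol

/-- second component -/
noncomputable def mul2 (a b : Big) : E V :=
  res a.1 * b.2.1 + a.2.1 * res b.1
    - (2 * (eps a.2.1 * ∑ x, b.2.2 x + eps b.2.1 * ∑ x, a.2.2 x)) • vol

/-- third component -/
noncomputable def mul3 (a b : Big) : T :=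
  fun x => eps a.1 * b.2.2 x + a.2.2 x * eps b.1 + 3 * eps a.2.1 * eps b.2.1

theorem mul_inv (a b : R) (s : Equiv.Perm (Fin 3)) : act s (mul1 a.1 b.1) = mul1 a.1 b.1 := by
  simp only [mul1, map_add, map_sub, map_mul, map_smul, act_push, a.2 s, b.2 s]

/-- the orbifold product -/
noncomputable def mul (a b : R) : R := ⟨(mul1 a.1 b.1, mul2 a.1 b.1, mul3 a.1 b.1), mul_inv a b⟩

/-- `a` has degree `k` (the sectors are shifted by 0, 2, 4) -/
def grade (k : ℕ) (a : R) : Prop :=
  a.1.1 ∈ deg W k ∧ (if 2 ≤ k then a.1.2.1 ∈ deg V (k - 2) else a.1.2.1 = 0) ∧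
    (k ≠ 4 → a.1.2.2 = 0)

theorem pt_inv (s : Equiv.Perm (Fin 3)) :
    act s ((1 / 3 : ℚ) • push vol) = (1 / 3 : ℚ) • push vol := by
  simp only [map_smul, act_push]

/-- the class of a point of `N` (one sixth of the class of a point of the Kummer fourfold) -/
noncomputable def pt : R := ⟨((1 / 3 : ℚ) • push vol, 0, 0), pt_inv⟩

theorem til_inv (x : E V) (s : Equiv.Perm (Fin 3)) :
    act s (∑ a, pull (p a) x) = ∑ a, pull (p a) x := by
  simp only [map_sum, act_pull]
  exact Equiv.sum_comp s (fun a => pull (p a) x)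

/-- `x ↦ p₀^* x + p₁^* x + p₂^* x` -/
noncomputable def til (x : E V) : R := ⟨(∑ a, pull (p a) x, 0, 0), til_inv x⟩

/-- the class of the holomorphic symplectic form for the period matrix `P` -/
noncomputable def sigma (P : Matrix (Fin 2) (Fin 4) ℂ) : ℂ ⊗[ℚ] R :=
  ∑ i, ∑ j, (P 0 i * P 1 j) ⊗ₜ[ℚ] til (gen (e i) * gen (e j))

end Pool.Agent.Lib.MP_d3d358_ag.Kum
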