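import Pool.Agent.Lib.MP_d3d358_ag.Orb.Defs
import Pool.Agent.Lib.MP_d3d358_ag.Orb.Ext

namespace Pool.Agent.Lib.MP_d3d358_ag.Orb

open ExteriorAlgebra

def eA (k : ℕ) : V := fun i => if i.val = k then 1 else 0
def eN (k : ℕ) : V × V := if k < 4 then (eA k, 0) else (0, eA (k - 4))
def FA : List ℕ := [0, 1, 2, 3]
def FN : List ℕ := [0, 1, 2, 3, 4, 5, 6, 7]

theorem eA_single (i : Fin 4) : eA i = Pi.single i 1 := by
  funext j
  by_cases h : j = i
  · subst h; simp [eA]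
  · have : j.val ≠ i.val := fun e => h (Fin.ext e)
    simp [eA, this, h]

theorem vol_eq : vol = mon eA FA := by
  rw [vol_multi, ιMulti_apply]
  simp only [Pi.basisFun_apply, ← eA_single]
  simp [List.ofFn_succ, mon, FA]

def subL (g : ℕ → Pol) : List ℕ → Pol
  | [] => [(1, [])]
  | i :: l => pm (g i) (subL g l)

def subP (g : ℕ → Pol) : Pol → Pol
  | [] => []
  | t :: q => ps t.1 (subL g t.2) ++ subP g q

def lt4 (q : Pol) : Bool := q.all fun t => t.2.all fun i => i < 4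

theorem map_mon (f : V →ₗ[ℚ] V × V) (g : ℕ → Pol)
    (h : ∀ i < 4, ι ℚ (f (eA i)) = ev eN (g i)) (l : List ℕ) (hl : ∀ i ∈ l, i < 4) :
    map f (mon eA l) = ev eN (subL g l) := by
  induction l with
  | nil => simp [subL, ev_cons]
  | cons i l ih =>
    rw [mon_cons, map_mul, map_apply_ι, h i (hl i (by simp)), subL, ev_pm,
      ih fun j hj => hl j (by simp [hj])]

theorem map_ev (f : V →ₗ[ℚ] V × V) (g : ℕ → Pol)
    (h : ∀ i < 4, ι ℚ (f (eA i)) = ev eN (g i)) (q : Pol) (hq : lt4 q = true) :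
    map f (ev eA q) = ev eN (subP g q) := by
  induction q with
  | nil => simp [subP]
  | cons t q ih =>
    have h' : (∀ i ∈ t.2, i < 4) ∧ lt4 q = true := by simpa [lt4] using hq
    rw [ev_cons, map_add, map_smul, map_mon f g h _ h'.1, ih h'.2, subP, ev_append, ev_ps]

def pa (a : Fin 3) (i : ℕ) : Pol :=
  if a = 0 then [(1, [i])] else if a = 1 then [(1, [4 + i])] else [(-1, [i]), (-1, [4 + i])]

theorem pa_ok (a : Fin 3) (i : ℕ) (hi : i < 4) : ι ℚ (p a (eA i)) = ev eN (pa a i) := by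
  have h1 : eN i = (eA i, 0) := by simp [eN, hi]
  have h2 : eN (4 + i) = (0, eA i) := by simp [eN]
  fin_cases a
  · simp [pa, ev_cons, mon_cons, h1, p]
  · simp [pa, ev_cons, mon_cons, h2, p]
  · have : p 2 (eA i) = -(eA i, 0) - (0, eA i) := by simp [p]
    change ι ℚ (p 2 (eA i)) = ev eN (pa 2 i)
    rw [this, map_sub, map_neg]
    simp [pa, ev_cons, mon_cons, h1, h2, sub_eq_add_neg]

def pd (a c : Fin 3) (i : ℕ) : Pol := pa a i ++ ps (-1) (pa c i)

theorem pd_ok (a c : Fin 3) (i : ℕ) (hi : i < 4) :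
    ι ℚ ((p a - p c) (eA i)) = ev eN (pd a c i) := by
  rw [LinearMap.sub_apply, map_sub, pa_ok a i hi, pa_ok c i hi, pd, ev_append, ev_ps]
  simp [sub_eq_add_neg]

def tilP (q : Pol) : Pol := subP (pa 0) q ++ (subP (pa 1) q ++ subP (pa 2) q)

theorem til_ev (q : Pol) (hq : lt4 q = true) : (til (ev eA q)).1.1 = ev eN (tilP q) := by
  change ∑ a, map (p a) (ev eA q) = _
  rw [Fin.sum_univ_three, map_ev _ _ (pa_ok 0) q hq, map_ev _ _ (pa_ok 1) q hq,
    map_ev _ _ (pa_ok 2) q hq, tilP, ev_append, ev_append, add_assoc]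

theorem chk_push : ∀ a c : Fin 3, a ≠ c →
    (okF FN (pm (subL (pa a) FA) (subL (pd a c) FA)) &&
      cf (pm (subL (pa a) FA) (subL (pd a c) FA)) == 1) = true := by decide +kernel

theorem push_vol : push vol = (3 : ℚ) • mon eN FN := by
  have hF : ∀ i ∈ FA, i < 4 := by decide
  have h : ∀ s : Equiv.Perm (Fin 3),
      act s (map (p 0) vol * map (p 0 - p 1) vol) = mon eN FN := by
    intro s
    have e : act s (map (p 0 - p 1) vol) = map (p (s 0) - p (s 1)) vol := by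
      rw [act, ← AlgHom.comp_apply, map_comp_map, LinearMap.comp_sub, coprod_p, coprod_p]
    rw [map_mul, act_map, e, vol_eq, map_mon _ _ (pa_ok (s 0)) _ hF,
      map_mon _ _ (pd_ok (s 0) (s 1)) _ hF, ← ev_pm,
      ev_chk eN FN _ 1 (chk_push _ _ (by simp))]
    simp
  simp only [push, h, Finset.sum_const, Finset.card_univ, Fintype.card_perm, Fintype.card_fin]
  rw [← Nat.cast_smul_eq_nsmul ℚ, smul_smul]
  norm_num [Nat.factorial]

theorem pt_eq : pt.1 = (mon eN FN, 0, 0) := by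
  change ((1 / 3 : ℚ) • push vol, (0 : EA), (0 : (Fin 4 → ZMod 3) → ℚ)) = _
  rw [push_vol, smul_smul]; norm_num

theorem push_smul (c : ℚ) (v : EA) : push (c • v) = c • push v := by
  simp only [push, map_smul, smul_mul_assoc, ← Finset.smul_sum]
  rw [smul_comm]

theorem push_zero : push 0 = 0 := by simp [push]

theorem iMulti_ne {W : Type} [AddCommGroup W] [Module ℚ W] {n : ℕ} (v : Fin n → W)
    (L : W →ₗ[ℚ] (Fin n → ℚ)) (h : (Matrix.of fun i j => L (v i) j) = 1) :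
    ∃ T : ExteriorAlgebra ℚ W →ₗ[ℚ] ℚ, T (ιMulti ℚ n v) = 1 := by
  classical
  refine ⟨liftAlternating (Pi.single n
    ((Matrix.detRowAlternating : (Fin n → ℚ) [⋀^Fin n]→ₗ[ℚ] ℚ).compLinearMap L)), ?_⟩
  rw [liftAlternating_apply_ιMulti, Pi.single_eq_same, AlternatingMap.compLinearMap_apply]
  change Matrix.det (Matrix.of fun i j => L (v i) j) = 1
  rw [h, Matrix.det_one]

theorem ex_topA : ∃ T : EA →ₗ[ℚ] ℚ, T (mon eA FA) = 1 := by
  rw [← vol_eq, vol_multi]
  refine iMulti_ne _ LinearMap.id ?_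
  ext i j
  simp [Matrix.one_apply, Pi.single_apply, eq_comm]

theorem ex_topN : ∃ T : EN →ₗ[ℚ] ℚ, T (mon eN FN) = 1 := by
  have e : mon eN FN = ιMulti ℚ 8 (fun i : Fin 8 => eN i) := by
    rw [ιMulti_apply]
    simp [List.ofFn_succ, mon, FN]
  rw [e]
  refine iMulti_ne _ (LinearMap.pi fun j : Fin 8 =>
    if h : j.val < 4 then LinearMap.proj (⟨j.val, h⟩ : Fin 4) ∘ₗ LinearMap.fst ℚ V V
    else LinearMap.proj (⟨j.val - 4, by omega⟩ : Fin 4) ∘ₗ LinearMap.snd ℚ V V) ?_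
  ext i j
  fin_cases i <;> fin_cases j <;> simp [eN, eA]

theorem smul_FN_inj {c d : ℚ} (h : c • mon eN FN = d • mon eN FN) : c = d := by
  obtain ⟨T, hT⟩ := ex_topN
  have := congrArg T h
  simpa [hT] using this

theorem smul_FA_inj {c d : ℚ} (h : c • mon eA FA = d • mon eA FA) : c = d := by
  obtain ⟨T, hT⟩ := ex_topA
  have := congrArg T h
  simpa [hT] using this

end Pool.Agent.Lib.MP_d3d358_ag.Orb
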