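import Pool.Agent.Lib.MP_d3d358_ag.Orb.Tab

/-! The degree three part of the orbifold algebra. -/

namespace Pool.Agent.Lib.MP_d3d358_ag.Orb

open ExteriorAlgebra

/-- `e₀e₁e₂e₃` with `e_k` omitted -/
def yL (k : Fin 4) : List ℕ := FA.erase k.val
noncomputable def tl : EA →ₗ[ℚ] EN := ∑ a, (map (p a)).toLinearMap

theorem tl_apply (x : EA) : tl x = (til x).1.1 := by
  simp [tl, til, LinearMap.sum_apply]

theorem sum_perm3 {M : Type} [AddCommMonoid M] (f : Fin 3 → Fin 3 → M) :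
    ∑ s : Equiv.Perm (Fin 3), f (s 0) (s 1)
      = f 0 1 + f 0 2 + f 1 0 + f 1 2 + f 2 0 + f 2 1 := by
  have h : (Finset.univ : Finset (Equiv.Perm (Fin 3))) =
      {1, Equiv.swap 1 2, Equiv.swap 0 1, Equiv.swap 0 1 * Equiv.swap 1 2,
        Equiv.swap 1 2 * Equiv.swap 0 1, Equiv.swap 0 2} := by decide
  rw [h, Finset.sum_insert (by decide), Finset.sum_insert (by decide),
    Finset.sum_insert (by decide), Finset.sum_insert (by decide),
    Finset.sum_insert (by decide), Finset.sum_singleton]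
  have e1 : (Equiv.swap (1 : Fin 3) 2) 0 = 0 := by decide
  have e2 : (Equiv.swap (1 : Fin 3) 2) 1 = 2 := by decide
  have e3 : (Equiv.swap (0 : Fin 3) 1) 0 = 1 := by decide
  have e4 : (Equiv.swap (0 : Fin 3) 1) 1 = 0 := by decide
  have e5 : (Equiv.swap (0 : Fin 3) 1 * Equiv.swap (1 : Fin 3) 2) 0 = 1 := by decide
  have e6 : (Equiv.swap (0 : Fin 3) 1 * Equiv.swap (1 : Fin 3) 2) 1 = 2 := by decide
  have e7 : (Equiv.swap (1 : Fin 3) 2 * Equiv.swap (0 : Fin 3) 1) 0 = 2 := by decide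
  have e8 : (Equiv.swap (1 : Fin 3) 2 * Equiv.swap (0 : Fin 3) 1) 1 = 0 := by decide
  have e9 : (Equiv.swap (0 : Fin 3) 2) 0 = 2 := by decide
  have e10 : (Equiv.swap (0 : Fin 3) 2) 1 = 1 := by decide
  rw [e1, e2, e3, e4, e5, e6, e7, e8, e9, e10, Equiv.Perm.one_apply, Equiv.Perm.one_apply]
  abel

theorem p_two (x : V) : ι ℚ (p 2 x) = -ι ℚ (p 0 x) - ι ℚ (p 1 x) := by
  rw [← map_neg, ← map_sub]; rfl

theorem tl3 (x y z : V) : tl (ι ℚ x * ι ℚ y * ι ℚ z) =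
    ι ℚ (p 0 x) * ι ℚ (p 0 y) * ι ℚ (p 0 z) + ι ℚ (p 1 x) * ι ℚ (p 1 y) * ι ℚ (p 1 z)
      + ι ℚ (p 2 x) * ι ℚ (p 2 y) * ι ℚ (p 2 z) := by
  simp [tl, Fin.sum_univ_three]

/-- the sum `u₀v₀w₀ + u₁v₁w₁ + u₂v₂w₂` with `u₂ = -u₀ - u₁` and so on -/
def T3 {A : Type} [Ring A] (a b c d e f : A) : A :=
  a * c * e + b * d * f + (-a - b) * (-c - d) * (-e - f)

set_option maxRecDepth 20000 in
theorem core3 {A : Type} [Ring A] (a0 a1 b0 b1 c0 c1 d0 d1 e0 e1 f0 f1 : A) :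
    (a0 + b1) * (c0 + d1) * (e0 + f1)
      + (a0 + (-b0 - b1)) * (c0 + (-d0 - d1)) * (e0 + (-f0 - f1))
      + (a1 + b0) * (c1 + d0) * (e1 + f0)
      + (a1 + (-b0 - b1)) * (c1 + (-d0 - d1)) * (e1 + (-f0 - f1))
      + (-a0 - a1 + b0) * (-c0 - c1 + d0) * (-e0 - e1 + f0)
      + (-a0 - a1 + b1) * (-c0 - c1 + d1) * (-e0 - e1 + f1)
    = T3 a0 a1 c0 c1 e0 e1 + T3 a0 a1 c0 c1 e0 e1
      + (T3 b0 b1 d0 d1 f0 f1 + T3 b0 b1 d0 d1 f0 f1)
      - T3 a0 a1 c0 c1 f0 f1 - T3 a0 a1 d0 d1 e0 e1 - T3 b0 b1 c0 c1 e0 e1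
      - T3 a0 a1 d0 d1 f0 f1 - T3 b0 b1 c0 c1 f0 f1 - T3 b0 b1 d0 d1 e0 e1 := by
  simp only [T3, mul_add, add_mul, mul_sub, sub_mul, neg_mul, mul_neg]
  abel

theorem rey3 (w0 w1 w2 : V × V) :
    ∑ s, act s (ι ℚ w0 * ι ℚ w1 * ι ℚ w2) =
      tl ((2 : ℚ) • (ι ℚ w0.1 * ι ℚ w1.1 * ι ℚ w2.1) + (2 : ℚ) • (ι ℚ w0.2 * ι ℚ w1.2 * ι ℚ w2.2)
        - ι ℚ w0.1 * ι ℚ w1.1 * ι ℚ w2.2 - ι ℚ w0.1 * ι ℚ w1.2 * ι ℚ w2.1
        - ι ℚ w0.2 * ι ℚ w1.1 * ι ℚ w2.1 - ι ℚ w0.1 * ι ℚ w1.2 * ι ℚ w2.2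
        - ι ℚ w0.2 * ι ℚ w1.1 * ι ℚ w2.2 - ι ℚ w0.2 * ι ℚ w1.2 * ι ℚ w2.1) := by
  have h : ∀ (s : Equiv.Perm (Fin 3)) (w : V × V),
      act s (ι ℚ w) = ι ℚ (p (s 0) w.1) + ι ℚ (p (s 1) w.2) := by
    intro s w
    rw [act, map_apply_ι, LinearMap.coprod_apply, map_add]
  simp only [map_mul, h]
  rw [sum_perm3 (fun a c => (ι ℚ (p a w0.1) + ι ℚ (p c w0.2)) * (ι ℚ (p a w1.1) + ι ℚ (p c w1.2))
    * (ι ℚ (p a w2.1) + ι ℚ (p c w2.2)))]
  simp only [map_sub, map_add, two_smul, tl3, p_two]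
  exact core3 _ _ _ _ _ _ _ _ _ _ _ _

theorem iota_expand (x : V) : ι ℚ x = ∑ i : Fin 4, x i • ι ℚ (eA i) := by
  conv_lhs => rw [← (Pi.basisFun ℚ (Fin 4)).sum_repr x]
  simp [map_sum, eA_single]

/-- the span of the four monomials of degree three -/
noncomputable def Y3 : Submodule ℚ EA := Submodule.span ℚ (Set.range fun k => mon eA (yL k))

theorem chk_three : ∀ i j k : Fin 4, (nf [i.val, j.val, k.val]).1 = 0 ∨
    ∃ m : Fin 4, (nf [i.val, j.val, k.val]).2 = yL m := by decide +kernel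

theorem mul3_mem (x y z : V) : ι ℚ x * ι ℚ y * ι ℚ z ∈ Y3 := by
  rw [iota_expand x, iota_expand y, iota_expand z]
  simp only [Finset.sum_mul, Finset.mul_sum, smul_mul_assoc, mul_smul_comm]
  refine Submodule.sum_mem _ fun k _ => Submodule.smul_mem _ _ <|
    Submodule.sum_mem _ fun j _ => Submodule.smul_mem _ _ <|
    Submodule.sum_mem _ fun i _ => Submodule.smul_mem _ _ ?_
  have e : ι ℚ (eA i) * ι ℚ (eA j) * ι ℚ (eA k) = mon eA [i.val, j.val, k.val] := by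
    simp [mon, mul_assoc]
  rw [e, nf_ok]
  rcases chk_three i j k with h | ⟨m, h⟩
  · simp [h]
  · rw [h]
    exact Submodule.smul_mem _ _ (Submodule.subset_span ⟨m, rfl⟩)

theorem inv3 (u : EN) (hu : u ∈ ⋀[ℚ]^3 (V × V)) (hs : ∀ s, act s u = u) :
    ∃ α : Fin 4 → ℚ, u = ∑ k, α k • tl (mon eA (yL k)) := by
  have key : ∑ s, act s u ∈ Y3.map tl := by
    clear hs
    rw [← ιMulti_span_fixedDegree] at hu
    induction hu using Submodule.span_induction with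
    | mem x hx =>
      obtain ⟨v, rfl⟩ := hx
      have e : ιMulti ℚ 3 v = ι ℚ (v 0) * ι ℚ (v 1) * ι ℚ (v 2) := by
        rw [ιMulti_apply]; simp [List.ofFn_succ, mul_assoc]
      rw [e, rey3]
      refine Submodule.mem_map_of_mem ?_
      repeat first
        | exact mul3_mem _ _ _
        | apply Submodule.sub_mem
        | apply Submodule.add_mem
        | apply Submodule.smul_mem
    | zero => simp
    | add x y _ _ hx hy =>
      simp only [map_add, Finset.sum_add_distrib]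
      exact Submodule.add_mem _ hx hy
    | smul c x _ hx =>
      simp only [map_smul, ← Finset.smul_sum]
      exact Submodule.smul_mem _ _ hx
  simp only [hs, Finset.sum_const, Finset.card_univ, Fintype.card_perm, Fintype.card_fin] at key
  have k2 : u ∈ Y3.map tl := by
    have := Submodule.smul_mem _ (1 / 6 : ℚ) key
    rw [← Nat.cast_smul_eq_nsmul ℚ, smul_smul] at this
    norm_num [Nat.factorial] at this
    simpa using this
  obtain ⟨w, hw, rfl⟩ := k2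
  obtain ⟨α, rfl⟩ := (Submodule.mem_span_range_iff_exists_fun ℚ).1 hw
  exact ⟨α, by simp [map_sum]⟩

theorem grade3 (a : R) (h : a.1 ∈ grade 3) :
    ∃ (α : Fin 4 → ℚ) (v : V), a.1 = (∑ k, α k • tl (mon eA (yL k)), ι ℚ v, 0) := by
  obtain ⟨h1, h2, h3⟩ := h
  obtain ⟨α, hα⟩ := inv3 _ h1 (mem_R.1 a.2)
  have h2' : a.1.2.1 ∈ LinearMap.range (ι ℚ : V →ₗ[ℚ] EA) := by
    simpa [exteriorPower] using h2
  obtain ⟨v, hv⟩ := h2'
  have h3' : a.1.2.2 = 0 := by simpa using h3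
  exact ⟨α, v, Prod.ext hα (Prod.ext hv.symm h3')⟩

/-- the twisted class of a vector -/
noncomputable def tw (v : V) : R := ⟨(0, ι ℚ v, 0), mem_R.2 fun s => by simp⟩

theorem tw_mem (v : V) : (tw v).1 ∈ grade 3 := by
  refine ⟨Submodule.zero_mem _, ?_, Submodule.zero_mem _⟩
  simp [tw, exteriorPower]

theorem tw_add (v w : V) : tw (v + w) = tw v + tw w := by
  apply Subtype.ext
  simp [tw]

end Pool.Agent.Lib.MP_d3d358_ag.Orb
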